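import Mathlib
import Pool.Agent.Shared.Steiner
import Pool.Agent.Shared.BrunnMinkowski

/-!
The surface area of a convex body as the derivative of the parallel volume at radius zero.
-/

open MeasureTheory Set Metric Polynomial Filter Topology

namespace Pool.Agent.Lib.MP_0139c6_co

open Pool.Agent.Shared.EuclidSlice Pool.Agent.Shared.NearestPoint Pool.Agent.Shared.Steiner

variable {n : ℕ}

/-- a nonempty compact convex set. -/
structure Body (K : Set (E n)) : Prop where
  compact : IsCompact K
  convex : Convex ℝ K
  nonempty : K.Nonempty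

/-- surface area. -/
noncomputable def surf (K : Set (E n)) : ℝ :=
  derivWithin (fun r => volume.real (cthickening r K)) (Ici 0) 0

theorem surf_eq_coeff {K : Set (E n)} {P : ℝ[X]}
    (hP : ∀ t : ℝ, 0 ≤ t → volume.real (cthickening t K) = P.eval t) :
    HasDerivWithinAt (fun r => volume.real (cthickening r K)) (P.coeff 1) (Ici 0) 0 ∧
      surf K = P.coeff 1 := by
  have h1 : HasDerivWithinAt (fun r => P.eval r) (P.coeff 1) (Ici 0) 0 := by
    have := (P.hasDerivAt 0).hasDerivWithinAt (s := Ici 0)
    rwa [← coeff_zero_eq_eval_zero, coeff_derivative, Nat.cast_zero, zero_add, zero_add,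
      mul_one] at this
  have h2 : HasDerivWithinAt (fun r => volume.real (cthickening r K)) (P.coeff 1) (Ici 0) 0 :=
    h1.congr (fun t ht => hP t ht) (hP 0 le_rfl)
  exact ⟨h2, h2.derivWithin (uniqueDiffWithinAt_Ici 0)⟩

theorem Body.tendsto_surf {K : Set (E n)} (hK : Body K) :
    Tendsto (fun r => (volume.real (cthickening r K) - volume.real K) / r) (𝓝[>] 0)
      (𝓝 (surf K)) := by
  obtain ⟨P, -, hP⟩ := exists_steiner_poly hK.compact hK.convex hK.nonempty
  obtain ⟨h1, h2⟩ := surf_eq_coeff hP
  rw [← h2, hasDerivWithinAt_iff_tendsto_slope, Ici_sdiff_left] at h1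
  refine h1.congr fun r => ?_
  rw [slope_def_field, cthickening_zero, hK.compact.isClosed.closure_eq, sub_zero]

theorem surf_mono {K L : Set (E n)} (hK : Body K) (hL : Body L) (h : K ⊆ L) :
    surf K ≤ surf L := by
  refine le_of_tendsto_of_tendsto hK.tendsto_surf hL.tendsto_surf ?_
  filter_upwards [self_mem_nhdsWithin] with r hr
  have hr' : (0 : ℝ) < r := hr
  exact div_le_div_of_nonneg_right
    (shell_mono hK.compact hK.convex hK.nonempty hL.compact h hr'.le) hr'.le

theorem Body.surf_nonneg {K : Set (E n)} (hK : Body K) : 0 ≤ surf K := by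
  refine ge_of_tendsto hK.tendsto_surf ?_
  filter_upwards [self_mem_nhdsWithin] with r hr
  have hr' : (0 : ℝ) < r := hr
  refine div_nonneg (sub_nonneg.2 ?_) hr'.le
  exact measureReal_mono (self_subset_cthickening K) hK.compact.cthickening.measure_lt_top.ne

theorem Body.shell_superadd {K : Set (E n)} (hK : Body K) {a c : ℝ} (ha : 0 ≤ a) (hc : 0 ≤ c) :
    (volume.real (cthickening a K) - volume.real K) +
      (volume.real (cthickening c K) - volume.real K) ≤
      volume.real (cthickening (a + c) K) - volume.real K := by
  have h1 := shell_mono hK.compact hK.convex hK.nonempty (hK.compact.cthickening (r := a))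
    (self_subset_cthickening K) hc
  have h2 : volume.real (cthickening c (cthickening a K)) ≤
      volume.real (cthickening (a + c) K) := by
    refine measureReal_mono ?_ hK.compact.cthickening.measure_lt_top.ne
    rw [add_comm]
    exact cthickening_cthickening_subset hc ha K
  linarith

theorem Body.add_mul_surf_le {K : Set (E n)} (hK : Body K) {r : ℝ} (hr : 0 ≤ r) :
    volume.real K + r * surf K ≤ volume.real (cthickening r K) := by
  rcases hr.eq_or_lt with rfl | hr
  · rw [cthickening_zero, hK.compact.isClosed.closure_eq]; simp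
  have hk : ∀ (s : ℝ), 0 ≤ s → ∀ k : ℕ, (k : ℝ) * (volume.real (cthickening s K) - volume.real K) ≤
      volume.real (cthickening (k * s) K) - volume.real K := by
    intro s hs k
    induction k with
    | zero => simp [hK.compact.isClosed.closure_eq]
    | succ k ih =>
      have := hK.shell_superadd (a := k * s) (c := s) (by positivity) hs
      push_cast
      rw [add_mul, add_mul, one_mul, one_mul]
      linarith
  have ht : Tendsto (fun k : ℕ => r / ((k : ℝ) + 1)) atTop (𝓝[>] 0) := by
    refine tendsto_nhdsWithin_iff.2 ⟨?_, Eventually.of_forall fun k => ?_⟩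
    · have := (tendsto_one_div_add_atTop_nhds_zero_nat (𝕜 := ℝ)).const_mul r
      simpa [div_eq_mul_inv] using this
    · show 0 < r / ((k : ℝ) + 1)
      positivity
  have h1 := hK.tendsto_surf.comp ht
  have h2 : surf K ≤ (volume.real (cthickening r K) - volume.real K) / r := by
    refine le_of_tendsto' h1 fun k => ?_
    have h3 := hk (r / ((k : ℝ) + 1)) (by positivity) (k + 1)
    push_cast at h3
    have e : ((k : ℝ) + 1) * (r / ((k : ℝ) + 1)) = r := by field_simp
    rw [e] at h3
    simp only [Function.comp]
    rw [div_div_eq_mul_div, div_le_div_iff_of_pos_right hr]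
    linarith
  rw [le_div_iff₀ hr] at h2
  linarith

/-- the valuation property. -/
theorem surf_valuation {A B U W : Set (E n)} (hA : Body A) (hB : Body B) (hU : Body U)
    (hW : Body W) (h : ∀ r : ℝ, 0 ≤ r → cthickening r A = cthickening r U ∩ cthickening r W ∧
      cthickening r B = cthickening r U ∪ cthickening r W) :
    surf A + surf B = surf U + surf W := by
  have key : ∀ r : ℝ, 0 ≤ r → volume.real (cthickening r A) + volume.real (cthickening r B) =
      volume.real (cthickening r U) + volume.real (cthickening r W) := by
    intro r hr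
    rw [(h r hr).1, (h r hr).2, add_comm]
    exact measureReal_union_add_inter isClosed_cthickening.measurableSet
      hU.compact.cthickening.measure_lt_top.ne hW.compact.cthickening.measure_lt_top.ne
  have k0 := key 0 le_rfl
  simp only [cthickening_zero, hA.compact.isClosed.closure_eq, hB.compact.isClosed.closure_eq,
    hU.compact.isClosed.closure_eq, hW.compact.isClosed.closure_eq] at k0
  refine tendsto_nhds_unique (hA.tendsto_surf.add hB.tendsto_surf)
    ((hU.tendsto_surf.add hW.tendsto_surf).congr' ?_)
  filter_upwards [self_mem_nhdsWithin] with r hr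
  have hr' : (0 : ℝ) < r := hr
  have := key r hr'.le
  rw [← add_div, ← add_div]
  congr 1
  linarith

theorem Body.le_surf {K : Set (E n)} (hK : Body K) {a b : ℝ}
    (h : ∀ r : ℝ, 0 < r → r < 1 →
      volume.real K + r * (a - r * b) ≤ volume.real (cthickening r K)) : a ≤ surf K := by
  have h1 : Tendsto (fun r : ℝ => a - r * b) (𝓝[>] 0) (𝓝 a) := by
    have : Tendsto (fun r : ℝ => a - r * b) (𝓝 0) (𝓝 (a - 0 * b)) :=
      (by fun_prop : Continuous fun r : ℝ => a - r * b).tendsto 0
    simpa using this.mono_left nhdsWithin_le_nhds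
  refine le_of_tendsto_of_tendsto h1 hK.tendsto_surf ?_
  filter_upwards [Ioo_mem_nhdsGT (show (0 : ℝ) < 1 from one_pos)] with r hr
  have := h r hr.1 hr.2
  rw [le_div_iff₀ hr.1]
  linarith

end Pool.Agent.Lib.MP_0139c6_co
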