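import Mathlib
import Pool.Agent.Lib.MP_0139c6_co.Surface

/-!
The Steiner formula of an axis-parallel box.
-/

open MeasureTheory Set Metric Filter Topology Polynomial

namespace Pool.Agent.Lib.MP_0139c6_co

open Pool.Agent.Shared.EuclidSlice Pool.Agent.Shared.NearestPoint

variable {n : ℕ}

/-- axis-parallel box. -/
def box (a b : Fin n → ℝ) : Set (E n) := {x | ∀ i, a i ≤ x i ∧ x i ≤ b i}

/-- volume of the unit ball. -/
noncomputable def kap (j : ℕ) : ℝ := volume.real (closedBall (0 : E j) 1)

theorem body_box {a b : Fin n → ℝ} (h : ∀ i, a i ≤ b i) : Body (box a b) := by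
  refine ⟨?_, ?_, ⟨WithLp.toLp 2 a, fun i => ⟨le_rfl, h i⟩⟩⟩
  · have e : box a b = WithLp.toLp 2 '' (Icc a b) := by
      ext x
      constructor
      · intro hx
        exact ⟨x.ofLp, ⟨fun i => (hx i).1, fun i => (hx i).2⟩, rfl⟩
      · rintro ⟨y, hy, rfl⟩ i
        exact ⟨hy.1 i, hy.2 i⟩
    rw [e]
    exact isCompact_Icc.image (PiLp.continuous_toLp 2 _)
  · intro x hx y hy s t hs ht hst i
    exact convex_Icc (a i) (b i) (hx i) (hy i) hs ht hst

theorem cons_mem_box {a b : Fin (n + 1) → ℝ} {t : ℝ} {x : E n} :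
    cons t x ∈ box a b ↔ (a 0 ≤ t ∧ t ≤ b 0) ∧ x ∈ box (Fin.tail a) (Fin.tail b) := by
  simp [box, Fin.forall_fin_succ, Fin.tail]

theorem slice_cthickening_box {a b : Fin (n + 1) → ℝ} (h : ∀ i, a i ≤ b i) {r t c : ℝ}
    (hc : a 0 ≤ c ∧ c ≤ b 0) (hc' : ∀ s, a 0 ≤ s → s ≤ b 0 → (t - c) ^ 2 ≤ (t - s) ^ 2)
    (hr : 0 ≤ r) (htc : (t - c) ^ 2 ≤ r ^ 2) :
    slice (cthickening r (box a b)) t =
      cthickening (√(r ^ 2 - (t - c) ^ 2)) (box (Fin.tail a) (Fin.tail b)) := by
  ext x
  rw [mem_slice, mem_cthickening_iff_exists (body_box h).compact hr,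
    mem_cthickening_iff_exists (body_box (a := Fin.tail a) (b := Fin.tail b)
      fun i => h i.succ).compact (Real.sqrt_nonneg _)]
  constructor
  · rintro ⟨y, hy, hxy⟩
    rw [← cons_tail y] at hy hxy
    rw [cons_mem_box] at hy
    refine ⟨tail y, hy.2, Real.le_sqrt_of_sq_le ?_⟩
    have h1 := dist_cons_sq t (y 0) x (tail y)
    have h2 := hc' _ hy.1.1 hy.1.2
    have h3 := pow_le_pow_left₀ dist_nonneg hxy 2
    linarith
  · rintro ⟨y, hy, hxy⟩
    refine ⟨cons c y, cons_mem_box.2 ⟨hc, hy⟩, le_of_sq_le_sq ?_ hr⟩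
    have h1 := dist_cons_sq t c x y
    have h3 := pow_le_pow_left₀ dist_nonneg hxy 2
    rw [Real.sq_sqrt (by linarith)] at h3
    linarith

theorem slice_cthickening_box_empty {a b : Fin (n + 1) → ℝ} (h : ∀ i, a i ≤ b i) {r t : ℝ}
    (hr : 0 ≤ r) (ht : t ∉ Icc (a 0 - r) (b 0 + r)) : slice (cthickening r (box a b)) t = ∅ := by
  ext x
  simp only [mem_empty_iff_false, iff_false]
  rw [mem_slice, mem_cthickening_iff_exists (body_box h).compact hr]
  rintro ⟨y, hy, hxy⟩
  rw [← cons_tail y] at hy hxy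
  rw [cons_mem_box] at hy
  have h1 := dist_cons_sq t (y 0) x (tail y)
  have h3 := pow_le_pow_left₀ dist_nonneg hxy 2
  have h4 : (t - y 0) ^ 2 ≤ r ^ 2 := by nlinarith [sq_nonneg (dist x (tail y))]
  have h5 := abs_le.1 (abs_le_of_sq_le_sq' h4 hr |> abs_le.2)
  exact ht ⟨by linarith [hy.1.1], by linarith [hy.1.2]⟩

theorem volume_cthickening_box_succ {a b : Fin (n + 1) → ℝ} (h : ∀ i, a i ≤ b i) {r : ℝ}
    (hr : 0 ≤ r) {g : ℝ → ℝ} (hg : Continuous g)
    (hg' : ∀ s, 0 ≤ s → volume.real (cthickening s (box (Fin.tail a) (Fin.tail b))) = g s) :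
    volume.real (cthickening r (box a b)) =
      (b 0 - a 0) * g r + ∫ t in (-r)..r, g (√(r ^ 2 - t ^ 2)) := by
  have hL : IsCompact (cthickening r (box a b)) := (body_box h).compact.cthickening
  set H : ℝ → ℝ := fun s => volume.real (slice (cthickening r (box a b)) s) with hH
  have Hi : ∀ a b, IntervalIntegrable H volume a b := fun a b =>
    (integrable_real_slice hL).intervalIntegrable
  have h0 := h 0
  have e0 : volume.real (cthickening r (box a b)) = ∫ s in (a 0 - r)..(b 0 + r), H s := by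
    rw [real_eq_integral_slice hL, intervalIntegral.integral_of_le (by linarith),
      ← integral_Icc_eq_integral_Ioc, setIntegral_eq_integral_of_forall_compl_eq_zero]
    intro s hs
    simp [hH, slice_cthickening_box_empty h hr hs]
  have e1 : ∫ s in (a 0 - r)..(a 0), H s = ∫ t in (-r)..0, g (√(r ^ 2 - t ^ 2)) := by
    have := intervalIntegral.integral_comp_sub_right (a := a 0 - r) (b := a 0)
      (fun t => g (√(r ^ 2 - t ^ 2))) (a 0)
    rw [sub_sub_cancel_left, sub_self] at this
    rw [← this]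
    refine intervalIntegral.integral_congr fun s hs => ?_
    rw [uIcc_of_le (by linarith)] at hs
    simp only [hH]
    rw [slice_cthickening_box h (c := a 0) ⟨le_rfl, h0⟩ (fun u hu _ => by nlinarith [hs.2]) hr
      (by nlinarith [hs.1, hs.2]), hg' _ (Real.sqrt_nonneg _)]
  have e2 : ∫ s in (a 0)..(b 0), H s = (b 0 - a 0) * g r := by
    have : ∫ s in (a 0)..(b 0), H s = ∫ s in (a 0)..(b 0), g r := by
      refine intervalIntegral.integral_congr fun s hs => ?_
      rw [uIcc_of_le h0] at hs
      simp only [hH]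
      rw [slice_cthickening_box h (c := s) hs (fun u _ _ => by simpa using sq_nonneg _) hr
        (by simpa using sq_nonneg _), hg' _ (Real.sqrt_nonneg _)]
      simp [Real.sqrt_sq hr]
    rw [this]
    simp
  have e3 : ∫ s in (b 0)..(b 0 + r), H s = ∫ t in (0 : ℝ)..r, g (√(r ^ 2 - t ^ 2)) := by
    have := intervalIntegral.integral_comp_sub_right (a := b 0) (b := b 0 + r)
      (fun t => g (√(r ^ 2 - t ^ 2))) (b 0)
    rw [add_sub_cancel_left, sub_self] at this
    rw [← this]
    refine intervalIntegral.integral_congr fun s hs => ?_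
    rw [uIcc_of_le (by linarith)] at hs
    simp only [hH]
    rw [slice_cthickening_box h (c := b 0) ⟨h0, le_rfl⟩ (fun u _ hu => by nlinarith [hs.1]) hr
      (by nlinarith [hs.1, hs.2]), hg' _ (Real.sqrt_nonneg _)]
  have gi : ∀ u v, IntervalIntegrable (fun t => g (√(r ^ 2 - t ^ 2))) volume u v := fun u v =>
    (hg.comp (by fun_prop)).intervalIntegrable u v
  rw [e0, ← intervalIntegral.integral_add_adjacent_intervals (Hi _ (a 0)) (Hi _ _),
    ← intervalIntegral.integral_add_adjacent_intervals (Hi (a 0) (b 0)) (Hi _ _), e1, e2, e3,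
    ← intervalIntegral.integral_add_adjacent_intervals (gi (-r) 0) (gi 0 r)]
  ring

theorem volume_cthickening_point (j : ℕ) {r : ℝ} (hr : 0 ≤ r) :
    volume.real (cthickening r (box (0 : Fin j → ℝ) 0)) = kap j * r ^ j := by
  have e : box (0 : Fin j → ℝ) 0 = {0} := by
    ext x
    simp only [box, Pi.zero_apply, mem_ofPred_eq, mem_singleton_iff]
    constructor
    · intro hx
      ext i
      exact le_antisymm (hx i).2 (hx i).1
    · rintro rfl i
      simp
  rw [e, cthickening_singleton _ hr, kap, measureReal_def, measureReal_def,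
    Measure.addHaar_closedBall' _ _ hr, ENNReal.toReal_mul, ENNReal.toReal_ofReal (by positivity)]
  simp [mul_comm]

theorem kap_succ (j : ℕ) {r : ℝ} (hr : 0 ≤ r) :
    ∫ t in (-r)..r, kap j * √(r ^ 2 - t ^ 2) ^ j = kap (j + 1) * r ^ (j + 1) := by
  have := volume_cthickening_box_succ (n := j) (a := 0) (b := 0) (fun _ => le_rfl) hr
    (g := fun s => kap j * s ^ j) (by fun_prop) (fun s hs => volume_cthickening_point j hs)
  rw [volume_cthickening_point _ hr] at this
  rw [this]
  simp

theorem kap_zero : kap 0 = 1 := by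
  rw [kap, volume_euclideanSpace_eq_dirac]
  simp [measureReal_def]

theorem kap_one : kap 1 = 2 := by
  have := kap_succ 0 zero_le_one
  simp [kap_zero] at this
  linarith

theorem kap_pos (j : ℕ) : 0 < kap j :=
  ENNReal.toReal_pos (measure_closedBall_pos volume _ one_pos).ne' measure_closedBall_lt_top.ne

/-- generating polynomial of the elementary symmetric functions of the side lengths. -/
noncomputable def boxPoly (l : Fin n → ℝ) : ℝ[X] := ∏ i, (X + C (l i))

theorem boxPoly_succ (l : Fin (n + 1) → ℝ) :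
    boxPoly l = (X + C (l 0)) * boxPoly (Fin.tail l) := by
  simp [boxPoly, Fin.prod_univ_succ, Fin.tail]

theorem boxPoly_natDegree (l : Fin n → ℝ) : (boxPoly l).natDegree ≤ n := by
  refine (natDegree_prod_le _ _).trans ?_
  simp

theorem steiner_box : ∀ (n : ℕ) (a b : Fin n → ℝ), (∀ i, a i ≤ b i) → ∀ r : ℝ, 0 ≤ r →
    volume.real (cthickening r (box a b)) =
      ∑ j ∈ Finset.range (n + 1), kap j * r ^ j * (boxPoly (b - a)).coeff j := by
  intro n
  induction n with
  | zero =>
    intro a b h r hr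
    have e : cthickening r (box a b) = univ :=
      Subsingleton.eq_univ_of_nonempty ((body_box h).nonempty.mono (self_subset_cthickening _))
    rw [e, volume_euclideanSpace_eq_dirac]
    simp [kap_zero, boxPoly]
  | succ n ih =>
    intro a b h r hr
    rw [volume_cthickening_box_succ h hr
      (g := fun s => ∑ j ∈ Finset.range (n + 1), kap j * s ^ j *
        (boxPoly (Fin.tail b - Fin.tail a)).coeff j) (by fun_prop)
      (fun s hs => ih _ _ (fun i => h i.succ) s hs)]
    rw [intervalIntegral.integral_finsetSum fun j _ => Continuous.intervalIntegrable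
      (by fun_prop) _ _]
    simp_rw [intervalIntegral.integral_mul_const, kap_succ _ hr]
    have e : Fin.tail (b - a) = Fin.tail b - Fin.tail a := rfl
    rw [boxPoly_succ, e]
    set q := boxPoly (Fin.tail b - Fin.tail a) with hq
    have hz : q.coeff (n + 1) = 0 :=
      coeff_eq_zero_of_natDegree_lt (Nat.lt_succ_of_le (boxPoly_natDegree _))
    simp only [add_mul, coeff_add, coeff_C_mul, mul_add, Finset.sum_add_distrib]
    rw [Finset.sum_range_succ' (fun j => kap j * r ^ j * (X * q : ℝ[X]).coeff j) (n + 1),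
      Finset.sum_range_succ (fun j => kap j * r ^ j * ((b - a) 0 * q.coeff j)) (n + 1), hz,
      Finset.mul_sum]
    simp only [coeff_X_mul, mul_coeff_zero, coeff_X_zero, zero_mul, mul_zero, add_zero,
      Pi.sub_apply]
    rw [add_comm]
    congr 1
    refine Finset.sum_congr rfl fun j _ => ?_
    ring

end Pool.Agent.Lib.MP_0139c6_co
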