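import Mathlib
import Pool.Agent.Lib.MP_0139c6_co.Surface

/-!
The key inequality for one slab of height one.
-/

open MeasureTheory Set Metric Filter Topology

namespace Pool.Agent.Lib.MP_0139c6_co

open Pool.Agent.Shared.EuclidSlice Pool.Agent.Shared.NearestPoint
open Pool.Agent.Shared.BrunnMinkowski

variable {n : ℕ}

theorem slice_subset_vertical {K : Set (E (n + 1))} (hK : IsCompact K) {r s t : ℝ}
    (h : |t - s| ≤ r) : slice K s ⊆ slice (cthickening r K) t := by
  intro x hx
  rw [mem_slice, mem_cthickening_iff_exists hK ((abs_nonneg _).trans h)]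
  exact ⟨cons s x, hx, by rwa [dist_cons_vert]⟩

theorem real_slice_le_vertical {K : Set (E (n + 1))} (hK : IsCompact K) {r s t : ℝ}
    (h : |t - s| ≤ r) : volume.real (slice K s) ≤ volume.real (slice (cthickening r K) t) :=
  measureReal_mono (slice_subset_vertical hK h) (volume_slice_lt_top hK.cthickening t).ne

theorem slice_nonempty_between {K : Set (E (n + 1))} (hc : Convex ℝ K) {p q s : ℝ}
    (hp : (slice K p).Nonempty) (hq : (slice K q).Nonempty) (s0 : 0 ≤ s) (s1 : s ≤ 1) :
    (slice K (p + s * (q - p))).Nonempty := by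
  obtain ⟨x, hx⟩ := hp
  obtain ⟨y, hy⟩ := hq
  refine ⟨(1 - s) • x + s • y, ?_⟩
  have e : p + s * (q - p) = (1 - s) * p + s * q := by ring
  rw [mem_slice, e, cons_combo]
  exact hc hx hy (by linarith) s0 (by ring)

theorem real_slice_quasi {K : Set (E (n + 1))} (hK : IsCompact K) (hc : Convex ℝ K) {p q s : ℝ}
    (h : volume.real (slice K p) ≤ volume.real (slice K q)) (s0 : 0 ≤ s) (s1 : s ≤ 1) :
    volume.real (slice K p) ≤ volume.real (slice K (p + s * (q - p))) := by
  rcases s0.eq_or_lt with rfl | s0
  · simp
  rcases s1.eq_or_lt with rfl | s1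
  · simpa using h
  refine le_volume_of_le s0 s1 (isCompact_slice hK p) (isCompact_slice hK q)
    (isCompact_slice hK _) ?_ le_rfl h
  intro x hx y hy
  have e : p + s * (q - p) = (1 - s) * p + s * q := by ring
  rw [mem_slice, e, cons_combo]
  exact hc hx hy (by linarith) s0.le (by ring)

theorem slice_key {K : Set (E (n + 1))} (hK : IsCompact K) (hc : Convex ℝ K) {p u r M : ℝ}
    (hp : (slice K p).Nonempty) (hu : (slice K u).Nonempty) (hpu : |u - p| ≤ 1)
    (r0 : 0 < r) (r1 : r < 1) (hM : M ≤ surf (slice K p)) (hM' : M ≤ surf (slice K u))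
    (h : volume.real (slice K p) ≤ volume.real (slice K u)) :
    (1 - r) * volume.real (slice K u) + r * (volume.real (slice K p) + M) ≤
      volume.real (slice (cthickening r K) ((1 - r) * u + r * p)) := by
  set v := volume.real (slice K u) with hv
  set f := volume.real (slice K p) with hf
  rcases le_or_gt (f + M) v with hc1 | hc1
  · have h1 : v ≤ volume.real (slice (cthickening r K) ((1 - r) * u + r * p)) := by
      refine real_slice_le_vertical hK ?_
      have e : (1 - r) * u + r * p - u = -(r * (u - p)) := by ring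
      rw [e, abs_neg, abs_mul, abs_of_pos r0]
      nlinarith
    nlinarith
  have M0 : 0 < M := by linarith
  have bp : Body (slice K p) := ⟨isCompact_slice hK p, convex_slice hc p, hp⟩
  have bu : Body (slice K u) := ⟨isCompact_slice hK u, convex_slice hc u, hu⟩
  set y := r * (f + M - v) / M with hy
  set z := ((1 - r) * (v - f) + M * r) / M with hz
  have y0 : 0 ≤ y := div_nonneg (mul_nonneg r0.le (by linarith)) M0.le
  have z0 : 0 ≤ z := div_nonneg (add_nonneg (mul_nonneg (by linarith) (by linarith))
    (by positivity)) M0.le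
  have hyz : (1 - r) * y + r * z = r := by
    rw [hy, hz]; field_simp; ring
  refine le_volume_of_le r0 r1 (A := cthickening y (slice K u)) (B := cthickening z (slice K p))
    bu.compact.cthickening bp.compact.cthickening (isCompact_slice hK.cthickening _) ?_ ?_ ?_
  · intro a ha b hb
    obtain ⟨a', ha', haa⟩ := (mem_cthickening_iff_exists bu.compact y0).1 ha
    obtain ⟨b', hb', hbb⟩ := (mem_cthickening_iff_exists bp.compact z0).1 hb
    rw [mem_slice, mem_cthickening_iff_exists hK r0.le]
    refine ⟨cons ((1 - r) * u + r * p) ((1 - r) • a' + r • b'), ?_, ?_⟩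
    · rw [cons_combo]
      exact hc ha' hb' (by linarith) r0.le (by ring)
    · rw [dist_cons_same]
      refine (dist_add_add_le _ _ _ _).trans ?_
      rw [dist_smul₀, dist_smul₀, Real.norm_eq_abs, Real.norm_eq_abs, abs_of_pos r0,
        abs_of_pos (show 0 < 1 - r by linarith)]
      have : 0 ≤ 1 - r := by linarith
      refine le_trans ?_ hyz.le
      gcongr
  · refine le_trans ?_ (bu.add_mul_surf_le y0)
    have h1 : y * M ≤ y * surf (slice K u) := mul_le_mul_of_nonneg_left hM' y0
    have h2 : y * M = r * (f + M - v) := by rw [hy]; field_simp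
    linarith
  · refine le_trans ?_ (bp.add_mul_surf_le z0)
    have h1 : z * M ≤ z * surf (slice K p) := mul_le_mul_of_nonneg_left hM z0
    have h2 : z * M = (1 - r) * (v - f) + M * r := by rw [hz]; field_simp
    linarith

theorem slab_abstract {h g : ℝ → ℝ} {r c d : ℝ} (r0 : 0 < r) (r1 : r < 1)
    (hi : ∀ a b, IntervalIntegrable h volume a b) (gi : IntervalIntegrable g volume 0 1)
    (h1 : ∀ s ∈ Icc (0 : ℝ) 1, (1 - r) * g s + r * c ≤ h ((1 - r) * s))
    (h2 : ∀ s ∈ Icc (1 - r) 1, d ≤ h s) :
    (1 - r) ^ 2 * (∫ s in (0 : ℝ)..1, g s) + r * (1 - r) * c + r * d ≤ ∫ s in (0 : ℝ)..1, h s := by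
  rw [← intervalIntegral.integral_add_adjacent_intervals (hi 0 (1 - r)) (hi (1 - r) 1)]
  have e1 : ∫ s in (0 : ℝ)..(1 - r), h s = (1 - r) * ∫ s in (0 : ℝ)..1, h ((1 - r) * s) := by
    rw [intervalIntegral.mul_integral_comp_mul_left]
    simp
  have i1 : IntervalIntegrable (fun s => h ((1 - r) * s)) volume 0 1 := by
    have := (hi 0 (1 - r)).comp_mul_left (c := 1 - r)
    rwa [zero_div, div_self (by linarith)] at this
  have a1 : ∫ s in (0 : ℝ)..1, ((1 - r) * g s + r * c) ≤ ∫ s in (0 : ℝ)..1, h ((1 - r) * s) :=
    intervalIntegral.integral_mono_on zero_le_one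
      ((gi.const_mul _).add intervalIntegrable_const) i1 h1
  rw [intervalIntegral.integral_add (gi.const_mul _) intervalIntegrable_const,
    intervalIntegral.integral_const_mul] at a1
  simp only [intervalIntegral.integral_const, sub_zero, smul_eq_mul, one_mul] at a1
  have a2 : ∫ s in (1 - r)..1, d ≤ ∫ s in (1 - r)..1, h s :=
    intervalIntegral.integral_mono_on (by linarith) intervalIntegrable_const (hi _ _) h2
  simp only [intervalIntegral.integral_const, sub_sub_cancel, smul_eq_mul] at a2
  have a3 := mul_le_mul_of_nonneg_left a1 (show 0 ≤ 1 - r by linarith)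
  rw [e1]
  nlinarith

theorem slab_oriented {K : Set (E (n + 1))} (hK : IsCompact K) (hc : Convex ℝ K) {p q r M : ℝ}
    (hp : (slice K p).Nonempty) (hq : (slice K q).Nonempty) (hpq : |q - p| = 1)
    (r0 : 0 < r) (r1 : r < 1)
    (hM : ∀ s ∈ Icc (0 : ℝ) 1, M ≤ surf (slice K (p + s * (q - p))))
    (h : volume.real (slice K p) ≤ volume.real (slice K q)) :
    (1 - 2 * r) * (∫ s in (0 : ℝ)..1, volume.real (slice K (p + s * (q - p)))) +
      r * (1 - r) * (volume.real (slice K p) + volume.real (slice K q) + M) ≤
      ∫ s in (0 : ℝ)..1, volume.real (slice (cthickening r K) (p + s * (q - p))) := by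
  have hne : q - p ≠ 0 := by
    intro h0; rw [h0] at hpq; simp at hpq
  have integ : ∀ L : Set (E (n + 1)), IsCompact L → ∀ a b : ℝ,
      IntervalIntegrable (fun s => volume.real (slice L (p + s * (q - p)))) volume a b := by
    intro L hL a b
    exact (((integrable_real_slice hL).comp_add_left p).comp_mul_right' hne).intervalIntegrable
  have key := slab_abstract (c := volume.real (slice K p) + M) (d := volume.real (slice K q))
    r0 r1 (integ _ (hK.cthickening (r := r))) (integ _ hK 0 1)
    (fun s hs => by
      have e : p + (1 - r) * s * (q - p) = (1 - r) * (p + s * (q - p)) + r * p := by ring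
      rw [e]
      refine slice_key hK hc hp (slice_nonempty_between hc hp hq hs.1 hs.2) ?_ r0 r1 ?_
        (hM s hs) (real_slice_quasi hK hc h hs.1 hs.2)
      · rw [add_sub_cancel_left, abs_mul, hpq, mul_one, abs_of_nonneg hs.1]
        exact hs.2
      · simpa using hM 0 ⟨le_rfl, zero_le_one⟩)
    (fun s hs => by
      refine real_slice_le_vertical hK ?_
      have e : p + s * (q - p) - q = -((1 - s) * (q - p)) := by ring
      rw [e, abs_neg, abs_mul, hpq, mul_one, abs_of_nonneg (by linarith [hs.2])]
      linarith [hs.1])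
  refine le_trans ?_ key
  have I0 : 0 ≤ ∫ s in (0 : ℝ)..1, volume.real (slice K (p + s * (q - p))) :=
    intervalIntegral.integral_nonneg zero_le_one fun _ _ => measureReal_nonneg
  have q0 : 0 ≤ volume.real (slice K q) := measureReal_nonneg
  nlinarith [mul_nonneg (sq_nonneg r) I0, mul_nonneg (sq_nonneg r) q0]

theorem slab {K : Set (E (n + 1))} (hK : IsCompact K) (hc : Convex ℝ K) {t r M : ℝ}
    (hp : (slice K t).Nonempty) (hq : (slice K (t + 1)).Nonempty)
    (r0 : 0 < r) (r1 : r < 1) (hM : ∀ s ∈ Icc t (t + 1), M ≤ surf (slice K s)) :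
    (1 - 2 * r) * (∫ s in t..(t + 1), volume.real (slice K s)) +
      r * (1 - r) * (volume.real (slice K t) + volume.real (slice K (t + 1)) + M) ≤
      ∫ s in t..(t + 1), volume.real (slice (cthickening r K) s) := by
  rcases le_total (volume.real (slice K t)) (volume.real (slice K (t + 1))) with h | h
  · have key := slab_oriented hK hc hp hq (by simp) r0 r1
      (fun s hs => hM _ ⟨by simpa using hs.1, by simpa using hs.2⟩) h
    have e : ∀ L : Set (E (n + 1)), ∫ s in (0 : ℝ)..1, volume.real (slice L (t + s * (t + 1 - t))) =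
        ∫ s in t..(t + 1), volume.real (slice L s) := by
      intro L
      simp only [add_sub_cancel_left, mul_one]
      rw [intervalIntegral.integral_comp_add_left (fun s => volume.real (slice L s)) t]
      simp
    rwa [e, e] at key
  · have key := slab_oriented hK hc hq hp (by simp) r0 r1
      (fun s hs => hM _ ⟨by simp; linarith [hs.2], by simp; linarith [hs.1]⟩) h
    have e : ∀ L : Set (E (n + 1)),
        ∫ s in (0 : ℝ)..1, volume.real (slice L (t + 1 + s * (t - (t + 1)))) =
        ∫ s in t..(t + 1), volume.real (slice L s) := by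
      intro L
      have e' : ∀ s : ℝ, t + 1 + s * (t - (t + 1)) = t + 1 - s := fun s => by ring
      simp only [e']
      rw [intervalIntegral.integral_comp_sub_left (fun s => volume.real (slice L s)) (t + 1)]
      simp
    rw [e, e] at key
    linarith

end Pool.Agent.Lib.MP_0139c6_co
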