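import Mathlib
import Pool.Agent.Lib.MP_0139c6_co.Slab

/-!
Summing the slab inequality over all slabs.
-/

open MeasureTheory Set Metric Filter Topology

namespace Pool.Agent.Lib.MP_0139c6_co

open Pool.Agent.Shared.EuclidSlice Pool.Agent.Shared.NearestPoint

variable {n : ℕ}

theorem convex_tail_image {A : Set (E (n + 1))} (hA : Convex ℝ A) : Convex ℝ (tail '' A) := by
  rintro _ ⟨x, hx, rfl⟩ _ ⟨y, hy, rfl⟩ a b ha hb hab
  exact ⟨a • x + b • y, hA hx hy ha hb hab, tail_combo a b x y⟩

theorem Body.tail_image {A : Set (E (n + 1))} (hA : Body A) : Body (tail '' A) :=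
  ⟨hA.compact.image continuous_tail, convex_tail_image hA.convex, hA.nonempty.image _⟩

theorem body_inter_le {K : Set (E (n + 1))} (hK : IsCompact K) (hc : Convex ℝ K) {s : ℝ}
    (hs : (slice K s).Nonempty) : Body (K ∩ {x | x 0 ≤ s}) := by
  refine ⟨hK.inter_right (isClosed_le (by fun_prop) continuous_const), hc.inter ?_, ?_⟩
  · intro x hx y hy a b ha hb hab
    have hx' : x 0 ≤ s := hx
    have hy' : y 0 ≤ s := hy
    show a * x 0 + b * y 0 ≤ s
    have : s = a * s + b * s := by rw [← add_mul, hab, one_mul]
    nlinarith [mul_le_mul_of_nonneg_left hx' ha, mul_le_mul_of_nonneg_left hy' hb]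
  · obtain ⟨x, hx⟩ := hs
    exact ⟨cons s x, hx, by simp⟩

theorem body_inter_ge {K : Set (E (n + 1))} (hK : IsCompact K) (hc : Convex ℝ K) {s : ℝ}
    (hs : (slice K s).Nonempty) : Body (K ∩ {x | s ≤ x 0}) := by
  refine ⟨hK.inter_right (isClosed_le continuous_const (by fun_prop)), hc.inter ?_, ?_⟩
  · intro x hx y hy a b ha hb hab
    have hx' : s ≤ x 0 := hx
    have hy' : s ≤ y 0 := hy
    show s ≤ a * x 0 + b * y 0
    have : s = a * s + b * s := by rw [← add_mul, hab, one_mul]
    nlinarith [mul_le_mul_of_nonneg_left hx' ha, mul_le_mul_of_nonneg_left hy' hb]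
  · obtain ⟨x, hx⟩ := hs
    exact ⟨cons s x, hx, by simp⟩

theorem surf_slice_eq {K : Set (E (n + 1))} (hK : IsCompact K) (hc : Convex ℝ K) {s : ℝ}
    (hs : (slice K s).Nonempty) :
    surf (slice K s) + surf (tail '' K) =
      surf (tail '' (K ∩ {x | x 0 ≤ s})) + surf (tail '' (K ∩ {x | s ≤ x 0})) := by
  have bU := (body_inter_le hK hc hs).tail_image
  have bW := (body_inter_ge hK hc hs).tail_image
  have bA : Body (slice K s) := ⟨isCompact_slice hK s, convex_slice hc s, hs⟩
  have bK : Body K := ⟨hK, hc, by obtain ⟨x, hx⟩ := hs; exact ⟨_, hx⟩⟩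
  refine surf_valuation bA bK.tail_image bU bW fun r hr => ⟨?_, ?_⟩
  · refine Subset.antisymm (subset_inter ?_ ?_) ?_
    · refine cthickening_subset_of_subset r fun x hx => ⟨cons s x, ⟨hx, by simp⟩, by simp⟩
    · refine cthickening_subset_of_subset r fun x hx => ⟨cons s x, ⟨hx, by simp⟩, by simp⟩
    · rintro z ⟨hz1, hz2⟩
      obtain ⟨_, ⟨x, ⟨hx, hxs⟩, rfl⟩, hzx⟩ := (mem_cthickening_iff_exists bU.compact hr).1 hz1
      obtain ⟨_, ⟨y, ⟨hy, hys⟩, rfl⟩, hzy⟩ := (mem_cthickening_iff_exists bW.compact hr).1 hz2
      rw [mem_cthickening_iff_exists bA.compact hr]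
      have hmem : s ∈ segment ℝ (x 0) (y 0) := by
        rw [segment_eq_Icc (le_trans hxs hys)]
        exact ⟨hxs, hys⟩
      obtain ⟨a, b, ha, hb, hab, hs'⟩ := hmem
      refine ⟨a • tail x + b • tail y, ?_, ?_⟩
      · rw [mem_slice, ← hs', smul_eq_mul, smul_eq_mul, cons_combo, cons_tail, cons_tail]
        exact hc hx hy ha hb hab
      · rw [dist_comm, ← mem_closedBall]
        exact convex_closedBall z r (mem_closedBall'.2 hzx) (mem_closedBall'.2 hzy) ha hb hab
  · rw [← cthickening_union, ← image_union, ← inter_union_distrib_left]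
    congr 2
    refine (inter_eq_left.2 fun x _ => ?_).symm
    exact le_total (x 0) s

theorem step_sum {K : Set (E (n + 1))} (hK : IsCompact K) (hc : Convex ℝ K) {α : ℝ} {N : ℕ}
    (hb : ∀ x ∈ K, α ≤ x 0 ∧ x 0 ≤ α + N) (h0 : (slice K α).Nonempty)
    (hN : (slice K (α + N)).Nonempty) :
    ∑ k ∈ Finset.range (N + 1), (volume.real (slice K (α + k)) + surf (slice K (α + k)) / 2) ≤
      volume.real K + surf K / 2 + surf (tail '' K) / 2 := by
  have bK : Body K := ⟨hK, hc, by obtain ⟨x, hx⟩ := h0; exact ⟨_, hx⟩⟩
  have hne : ∀ s, α ≤ s → s ≤ α + N → (slice K s).Nonempty := by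
    intro s hs1 hs2
    have hmem : s ∈ segment ℝ α (α + N) := by
      rw [segment_eq_Icc (hs1.trans hs2)]
      exact ⟨hs1, hs2⟩
    obtain ⟨a, b, ha, hb, hab, hs'⟩ := hmem
    have := slice_nonempty_between hc h0 hN hb (by linarith)
    have e : α + b * (α + N - α) = s := by
      rw [← hs', smul_eq_mul, smul_eq_mul, show a = 1 - b by linarith]; ring
    rwa [e] at this
  set f : ℝ → ℝ := fun s => volume.real (slice K s) with hf
  set u : ℝ → ℝ := fun s => surf (tail '' (K ∩ {x | x 0 ≤ s})) with hu
  set w : ℝ → ℝ := fun s => surf (tail '' (K ∩ {x | s ≤ x 0})) with hw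
  set P := surf (tail '' K) with hP
  have val : ∀ s, α ≤ s → s ≤ α + N → surf (slice K s) = u s + w s - P := by
    intro s hs1 hs2
    have := surf_slice_eq hK hc (hne s hs1 hs2)
    simp only [hu, hw]
    linarith
  have umono : ∀ s t, α ≤ s → s ≤ t → t ≤ α + N → u s ≤ u t := by
    intro s t h1 h2 h3
    refine surf_mono (body_inter_le hK hc (hne s h1 (h2.trans h3))).tail_image
      (body_inter_le hK hc (hne t (h1.trans h2) h3)).tail_image (image_mono ?_)
    exact inter_subset_inter_right _ fun x hx => le_trans hx h2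
  have wanti : ∀ s t, α ≤ s → s ≤ t → t ≤ α + N → w t ≤ w s := by
    intro s t h1 h2 h3
    refine surf_mono (body_inter_ge hK hc (hne t (h1.trans h2) h3)).tail_image
      (body_inter_ge hK hc (hne s h1 (h2.trans h3))).tail_image (image_mono ?_)
    exact inter_subset_inter_right _ fun x hx => le_trans h2 hx
  have uP : u (α + N) ≤ P :=
    surf_mono (body_inter_le hK hc hN).tail_image bK.tail_image (image_mono inter_subset_left)
  have wP : w α ≤ P :=
    surf_mono (body_inter_ge hK hc h0).tail_image bK.tail_image (image_mono inter_subset_left)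
  set M : ℕ → ℝ := fun k => u (α + k) + w (α + (k + 1 : ℕ)) - P with hM
  have N0 : (0 : ℝ) ≤ N := Nat.cast_nonneg N
  -- the volume of `K` as a sum over slabs
  have volK : volume.real K = ∑ k ∈ Finset.range N, ∫ s in (α + k)..(α + (k + 1 : ℕ)), f s := by
    rw [intervalIntegral.sum_integral_adjacent_intervals (a := fun k : ℕ => α + k)
      (fun k _ => (integrable_real_slice hK).intervalIntegrable), real_eq_integral_slice hK]
    simp only [Nat.cast_zero, add_zero]
    rw [intervalIntegral.integral_of_le (by linarith), ← integral_Icc_eq_integral_Ioc,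
      setIntegral_eq_integral_of_forall_compl_eq_zero]
    intro s hs
    have : slice K s = ∅ := by
      ext x
      simp only [mem_empty_iff_false, iff_false]
      intro hx
      have := hb _ hx
      rw [cons_zero] at this
      exact hs this
    simp [this]
  have main : f α + f (α + N) - 2 * volume.real K +
      ∑ k ∈ Finset.range N, (f (α + k) + f (α + (k + 1 : ℕ)) + M k) ≤ surf K := by
    refine bK.le_surf (b := ∑ k ∈ Finset.range N, (f (α + k) + f (α + (k + 1 : ℕ)) + M k))
      fun r r0 r1 => ?_
    have hL : IsCompact (cthickening r K) := hK.cthickening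
    set H : ℝ → ℝ := fun s => volume.real (slice (cthickening r K) s) with hH
    have Hi : ∀ a b, IntervalIntegrable H volume a b := fun a b =>
      (integrable_real_slice hL).intervalIntegrable
    have e1 : ∫ s in (α - r)..(α + N + r), H s ≤ volume.real (cthickening r K) := by
      rw [real_eq_integral_slice hL, intervalIntegral.integral_of_le (by linarith)]
      exact setIntegral_le_integral (integrable_real_slice hL)
        (Eventually.of_forall fun _ => measureReal_nonneg)
    have e2 : ∫ s in (α - r)..(α + N + r), H s = (∫ s in (α - r)..α, H s) +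
        (∑ k ∈ Finset.range N, ∫ s in (α + k)..(α + (k + 1 : ℕ)), H s) +
        ∫ s in (α + N)..(α + N + r), H s := by
      rw [intervalIntegral.sum_integral_adjacent_intervals (a := fun k : ℕ => α + k)
        (fun k _ => Hi _ _)]
      simp only [Nat.cast_zero, add_zero]
      rw [intervalIntegral.integral_add_adjacent_intervals (Hi _ _) (Hi _ _),
        intervalIntegral.integral_add_adjacent_intervals (Hi _ _) (Hi _ _)]
    have e3 : r * f α ≤ ∫ s in (α - r)..α, H s := by
      have : ∫ s in (α - r)..α, f α ≤ ∫ s in (α - r)..α, H s :=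
        intervalIntegral.integral_mono_on (by linarith) intervalIntegrable_const (Hi _ _)
          fun s hs => real_slice_le_vertical hK (abs_le.2 ⟨by linarith [hs.1], by linarith [hs.2]⟩)
      simpa using this
    have e4 : r * f (α + N) ≤ ∫ s in (α + N)..(α + N + r), H s := by
      have : ∫ s in (α + N)..(α + N + r), f (α + N) ≤ ∫ s in (α + N)..(α + N + r), H s :=
        intervalIntegral.integral_mono_on (by linarith) intervalIntegrable_const (Hi _ _)
          fun s hs => real_slice_le_vertical hK (abs_le.2 ⟨by linarith [hs.1], by linarith [hs.2]⟩)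
      simpa using this
    have e5 : ∑ k ∈ Finset.range N, ((1 - 2 * r) * (∫ s in (α + k)..(α + (k + 1 : ℕ)), f s) +
        r * (1 - r) * (f (α + k) + f (α + (k + 1 : ℕ)) + M k)) ≤
        ∑ k ∈ Finset.range N, ∫ s in (α + k)..(α + (k + 1 : ℕ)), H s := by
      refine Finset.sum_le_sum fun k hk => ?_
      have hk' : (k : ℝ) + 1 ≤ N := by exact_mod_cast Finset.mem_range.1 hk
      have k0 : (0 : ℝ) ≤ k := Nat.cast_nonneg k
      have e : α + (k + 1 : ℕ) = α + k + 1 := by push_cast; ring
      simp only [hM]
      rw [e]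
      refine slab hK hc (hne _ (by linarith) (by linarith)) (hne _ (by linarith) (by linarith))
        r0 r1 fun s hs => ?_
      rw [val s (by linarith [hs.1]) (by linarith [hs.2])]
      have a1 := umono (α + k) s (by linarith) hs.1 (by linarith [hs.2])
      have a2 := wanti s (α + k + 1) (by linarith [hs.1]) hs.2 (by linarith)
      linarith
    rw [Finset.sum_add_distrib, ← Finset.mul_sum, ← Finset.mul_sum, ← volK] at e5
    nlinarith
  have tele : ∀ m : ℕ, m ≤ N →
      ∑ k ∈ Finset.range (m + 1), (2 * f (α + k) + surf (slice K (α + k))) =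
      f α + f (α + m) + ∑ k ∈ Finset.range m, (f (α + k) + f (α + (k + 1 : ℕ)) + M k) +
        (u (α + m) + w α - P) := by
    intro m hm
    induction m with
    | zero =>
      simp only [zero_add, Finset.range_one, Finset.sum_singleton, Nat.cast_zero, add_zero,
        Finset.range_zero, Finset.sum_empty]
      rw [val α le_rfl (by linarith)]
      ring
    | succ m ih =>
      have hm' : ((m + 1 : ℕ) : ℝ) ≤ N := by exact_mod_cast hm
      have m0 : (0 : ℝ) ≤ (m + 1 : ℕ) := Nat.cast_nonneg _
      rw [Finset.sum_range_succ, ih (by omega), Finset.sum_range_succ,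
        val _ (by linarith) (by linarith)]
      simp only [hM]
      ring
  have t := tele N le_rfl
  have e : ∑ k ∈ Finset.range (N + 1), (volume.real (slice K (α + k)) + surf (slice K (α + k)) / 2)
      = (∑ k ∈ Finset.range (N + 1), (2 * f (α + k) + surf (slice K (α + k)))) / 2 := by
    rw [Finset.sum_div]
    refine Finset.sum_congr rfl fun k _ => ?_
    simp only [hf]
    ring
  rw [e, t]
  linarith

end Pool.Agent.Lib.MP_0139c6_co
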