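import Mathlib
import Pool.Agent.Lib.MP_0139c6_co.Main

/-!
Cylinders over coordinate projections and box thickenings.
-/

open MeasureTheory Set Metric Filter Topology Pointwise

namespace Pool.Agent.Lib.MP_0139c6_co

open Pool.Agent.Shared.EuclidSlice Pool.Agent.Shared.NearestPoint

variable {n : ℕ}

/-- thickening by a box. -/
def thick (e : Fin n → ℝ) (K : Set (E n)) : Set (E n) := {x | ∃ y ∈ K, ∀ i, |x i - y i| ≤ e i}

theorem thick_eq (e : Fin n → ℝ) (K : Set (E n)) : thick e K = K + box (-e) e := by
  ext x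
  constructor
  · rintro ⟨y, hy, h⟩
    exact ⟨y, hy, x - y, fun i => abs_le.1 (h i), by simp⟩
  · rintro ⟨y, hy, z, hz, rfl⟩
    exact ⟨y, hy, fun i => abs_le.2 (by simpa using hz i)⟩

theorem isCompact_thick {e : Fin n → ℝ} (he : ∀ i, 0 ≤ e i) {K : Set (E n)} (hK : IsCompact K) :
    IsCompact (thick e K) := by
  rw [thick_eq]
  exact hK.add (body_box fun i => by have := he i; simp only [Pi.neg_apply]; linarith).compact

theorem convex_thick {e : Fin n → ℝ} (he : ∀ i, 0 ≤ e i) {K : Set (E n)} (hK : Convex ℝ K) :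
    Convex ℝ (thick e K) := by
  rw [thick_eq]
  exact hK.add (body_box fun i => by have := he i; simp only [Pi.neg_apply]; linarith).convex

/-- keep the chosen coordinates. -/
noncomputable def mask (J : Fin n → Bool) : E n →ₗ[ℝ] E n where
  toFun x := WithLp.toLp 2 fun j => if J j then x j else 0
  map_add' x y := by ext j; by_cases h : J j <;> simp [h]
  map_smul' c x := by ext j; by_cases h : J j <;> simp [h]

/-- the projection to the chosen coordinates times a unit cube. -/
def cyl (J : Fin n → Bool) (K : Set (E n)) : Set (E n) :=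
  {x | (∃ y ∈ K, ∀ j, J j → x j = y j) ∧ ∀ j, ¬ J j → 0 ≤ x j ∧ x j ≤ 1}

theorem cyl_eq (J : Fin n → Bool) (K : Set (E n)) :
    cyl J K = mask J '' K + box 0 (fun j => if J j then 0 else 1) := by
  ext x
  constructor
  · rintro ⟨⟨y, hy, h⟩, h'⟩
    refine ⟨_, ⟨y, hy, rfl⟩, x - mask J y, fun j => ?_, by simp⟩
    by_cases hj : J j
    · simp [mask, hj, h j hj]
    · simpa [mask, hj] using h' j hj
  · rintro ⟨_, ⟨y, hy, rfl⟩, z, hz, rfl⟩
    refine ⟨⟨y, hy, fun j hj => ?_⟩, fun j hj => ?_⟩
    · have := hz j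
      simp only [hj, if_true, Pi.zero_apply] at this
      simp [mask, hj, le_antisymm this.2 this.1]
    · simpa [mask, hj] using hz j

theorem body_cube (J : Fin n → Bool) : Body (box 0 (fun j => if J j then 0 else 1) : Set (E n)) :=
  body_box fun j => by by_cases h : J j <;> simp [h]

theorem isCompact_cyl (J : Fin n → Bool) {K : Set (E n)} (hK : IsCompact K) :
    IsCompact (cyl J K) := by
  rw [cyl_eq]
  exact (hK.image (mask J).continuous_of_finiteDimensional).add (body_cube J).compact

theorem convex_cyl (J : Fin n → Bool) {K : Set (E n)} (hK : Convex ℝ K) : Convex ℝ (cyl J K) := by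
  rw [cyl_eq]
  exact (hK.linear_image (mask J)).add (body_cube J).convex

theorem cyl_mono (J : Fin n → Bool) {K L : Set (E n)} (h : K ⊆ L) : cyl J K ⊆ cyl J L :=
  fun _ ⟨⟨y, hy, h1⟩, h2⟩ => ⟨⟨y, h hy, h1⟩, h2⟩

theorem slice_cyl_true (J : Fin n → Bool) (K : Set (E (n + 1))) (t : ℝ) :
    slice (cyl (Fin.cons true J) K) t = cyl J (slice K t) := by
  ext x
  simp only [mem_slice, cyl, mem_ofPred_eq, Fin.forall_fin_succ, Fin.cons_zero, Fin.cons_succ,
    cons_zero, cons_succ, forall_const, not_true_eq_false, IsEmpty.forall_iff, true_and]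
  refine and_congr_left fun _ => ⟨?_, ?_⟩
  · rintro ⟨y, hy, rfl, h⟩
    exact ⟨tail y, by rwa [cons_tail], by simpa using h⟩
  · rintro ⟨y, hy, h⟩
    exact ⟨_, hy, by simp, by simpa using h⟩

theorem tail_cyl (b : Bool) (J : Fin n → Bool) (K : Set (E (n + 1))) :
    tail '' cyl (Fin.cons b J) K ⊆ cyl J (tail '' K) := by
  rintro _ ⟨x, ⟨⟨y, hy, h1⟩, h2⟩, rfl⟩
  exact ⟨⟨_, ⟨y, hy, rfl⟩, fun j hj => by simpa using h1 j.succ (by simpa using hj)⟩,
    fun j hj => by simpa using h2 j.succ (by simpa using hj)⟩

theorem volume_cyl_false (J : Fin n → Bool) {K : Set (E (n + 1))} (hK : IsCompact K) :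
    volume (cyl (Fin.cons false J) K) = volume (cyl J (tail '' K)) := by
  rw [volume_eq_lintegral_slice (isCompact_cyl _ hK).measurableSet]
  have : ∀ t, volume (slice (cyl (Fin.cons false J) K) t) =
      (Icc (0 : ℝ) 1).indicator (fun _ => volume (cyl J (tail '' K))) t := by
    intro t
    by_cases ht : t ∈ Icc (0 : ℝ) 1
    · rw [indicator_of_mem ht]
      congr 1
      refine Subset.antisymm ((slice_subset_tail _ t).trans (tail_cyl _ J K)) ?_
      rintro x ⟨⟨_, ⟨y, hy, rfl⟩, h1⟩, h2⟩
      refine ⟨⟨y, hy, fun j => Fin.cases (by simp) (fun j hj => ?_) j⟩,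
        fun j => Fin.cases (fun _ => by simpa using ht) (fun j hj => ?_) j⟩
      · simpa using h1 j (by simpa using hj)
      · simpa using h2 j (by simpa using hj)
    · rw [indicator_of_notMem ht, show slice (cyl (Fin.cons false J) K) t = ∅ from
        eq_empty_of_forall_notMem fun x hx => ht (by simpa using hx.2 0 (by simp)), measure_empty]
  simp only [this]
  rw [lintegral_indicator_const measurableSet_Icc]
  simp

theorem volume_eq_lintegral_fiber {A : Set (E (n + 1))} (hA : MeasurableSet A) :
    volume A = ∫⁻ y, volume {t : ℝ | cons t y ∈ A} := by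
  rw [← measurePreserving_cons.measure_preimage hA.nullMeasurableSet,
    Measure.prod_apply_symm (measurePreserving_cons.measurable hA)]
  rfl

theorem volume_vert {L : Set (E (n + 1))} (hL : IsCompact L) (hc : Convex ℝ L) {r : ℝ}
    (hr : 0 ≤ r) :
    volume (thick (Fin.cons r 0) L) ≤ volume L + ENNReal.ofReal (2 * r) * volume (tail '' L) := by
  have he : ∀ i, 0 ≤ (Fin.cons r 0 : Fin (n + 1) → ℝ) i := fun i =>
    Fin.cases (by simpa using hr) (fun j => by simp) i
  have hT := (hL.image continuous_tail).measurableSet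
  rw [volume_eq_lintegral_fiber (isCompact_thick he hL).measurableSet,
    volume_eq_lintegral_fiber hL.measurableSet, ← lintegral_indicator_const hT,
    ← lintegral_add_right _ (measurable_const.indicator hT)]
  refine lintegral_mono fun y => ?_
  have hsub : ∀ t, cons t y ∈ thick (Fin.cons r 0) L → ∃ s, cons s y ∈ L ∧ |t - s| ≤ r := by
    rintro t ⟨z, hz, h⟩
    refine ⟨z 0, ?_, by simpa using h 0⟩
    have : y = tail z := by
      ext j
      have := h j.succ
      simp only [cons_succ, Fin.cons_succ, Pi.zero_apply, abs_nonpos_iff] at this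
      simpa using sub_eq_zero.1 this
    rwa [this, cons_tail]
  set F := {t : ℝ | cons t y ∈ L} with hF
  rcases F.eq_empty_or_nonempty with h0 | h0
  · rw [show {t : ℝ | cons t y ∈ thick (Fin.cons r 0) L} = ∅ from
      eq_empty_of_forall_notMem fun t ht => by
        obtain ⟨s, hs, -⟩ := hsub t ht
        exact (h0 ▸ hs : s ∈ (∅ : Set ℝ)), measure_empty]
    exact zero_le
  have h1 : IsCompact F := (Isometry.of_dist_eq (f := fun t : ℝ => cons t y)
    fun s t => dist_cons_vert s t y).isClosedEmbedding.isCompact_preimage hL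
  have h2 : Convex ℝ F := by
    intro s hs t ht a b ha hb hab
    have := hc hs ht ha hb hab
    rwa [← cons_combo, ← add_smul, hab, one_smul] at this
  have h3 := eq_Icc_of_connected_compact ⟨h0, h2.isPreconnected⟩ h1
  have h4 : sInf F ≤ sSup F := by rw [h3] at h0; exact nonempty_Icc.1 h0
  obtain ⟨s, hs⟩ := h0
  rw [indicator_of_mem (show y ∈ tail '' L from ⟨_, hs, tail_cons s y⟩)]
  calc volume {t : ℝ | cons t y ∈ thick (Fin.cons r 0) L}
      ≤ volume (Icc (sInf F - r) (sSup F + r)) := by
        refine measure_mono fun t ht => ?_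
        obtain ⟨s, hs, h⟩ := hsub t ht
        have : s ∈ Icc (sInf F) (sSup F) := h3 ▸ hs
        exact ⟨by linarith [this.1, (abs_le.1 h).1], by linarith [this.2, (abs_le.1 h).2]⟩
    _ = volume (Icc (sInf F) (sSup F)) + ENNReal.ofReal (2 * r) := by
        rw [Real.volume_Icc, Real.volume_Icc, ← ENNReal.ofReal_add (by linarith) (by linarith)]
        congr 1; ring
    _ = _ := by rw [← h3]

theorem sum_slice_le {L : Set (E (n + 1))} (hL : IsCompact L) (hc : Convex ℝ L) (α : ℝ) (N : ℕ) :
    ∑ k ∈ Finset.range N, volume.real (slice L (α + k)) ≤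
      volume.real L + volume.real (tail '' L) := by
  have he : ∀ i, 0 ≤ (Fin.cons (1 / 2) 0 : Fin (n + 1) → ℝ) i := fun i =>
    Fin.cases (by simp) (fun j => by simp) i
  have h1 := volume_vert hL hc (r := 1 / 2) (by norm_num)
  rw [volume_eq_lintegral_slice (isCompact_thick he hL).measurableSet] at h1
  have h2 : ∑ k ∈ Finset.range N, volume (slice L (α + k)) ≤
      ∫⁻ t, volume (slice (thick (Fin.cons (1 / 2) 0) L) t) := by
    have e : ∀ k : ℕ, volume (slice L (α + k)) = ∫⁻ t, (Ico (α + k - 1 / 2) (α + k + 1 / 2)).indicator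
        (fun _ => volume (slice L (α + k))) t := fun k => by
      rw [lintegral_indicator_const measurableSet_Ico, Real.volume_Ico,
        show α + k + 1 / 2 - (α + k - 1 / 2) = 1 by ring]
      simp
    rw [Finset.sum_congr rfl fun k _ => e k,
      ← lintegral_finsetSum _ fun k _ => measurable_const.indicator measurableSet_Ico]
    refine lintegral_mono fun t => ?_
    by_cases h : ∃ k : ℕ, t ∈ Ico (α + k - 1 / 2) (α + k + 1 / 2)
    · obtain ⟨k, hk⟩ := h
      refine (Finset.sum_le_sum_of_subset (Finset.subset_insert k _)).trans ?_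
      rw [Finset.sum_eq_single_of_mem k (Finset.mem_insert_self _ _) fun j _ hj => ?_,
        indicator_of_mem hk]
      · refine measure_mono fun x hx => ⟨_, hx, fun i => Fin.cases ?_ (fun j => by simp) i⟩
        simp only [cons_zero, Fin.cons_zero]
        exact abs_le.2 ⟨by linarith [hk.1], by linarith [hk.2]⟩
      · refine indicator_of_notMem (fun hj' => hj ?_) _
        have a1 : (j : ℝ) < k + 1 := by linarith [hj'.1, hk.2]
        have a2 : (k : ℝ) < j + 1 := by linarith [hj'.2, hk.1]
        have b1 : j < k + 1 := by exact_mod_cast a1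
        have b2 : k < j + 1 := by exact_mod_cast a2
        omega
    · push Not at h
      rw [Finset.sum_eq_zero fun k _ => indicator_of_notMem (h k) _]
      exact zero_le
  have h3 := h2.trans h1
  have f1 := hL.measure_lt_top (μ := volume).ne
  have f2 := (hL.image continuous_tail).measure_lt_top (μ := volume).ne
  norm_num at h3
  have h4 := ENNReal.toReal_mono (ENNReal.add_ne_top.2 ⟨f1, f2⟩) h3
  rw [ENNReal.toReal_sum fun k _ => (volume_slice_lt_top hL _).ne, ENNReal.toReal_add f1 f2] at h4
  exact h4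

end Pool.Agent.Lib.MP_0139c6_co
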