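import Mathlib
import Pool.Agent.Lib.MP_0139c6_co.Dav1

/-!
The lattice point bound with coordinate projections.
-/

open MeasureTheory Set Metric Filter Topology Pointwise

namespace Pool.Agent.Lib.MP_0139c6_co

open Pool.Agent.Shared.EuclidSlice Pool.Agent.Shared.NearestPoint

variable {n : ℕ}

/-- number of dropped coordinates. -/
def cod (J : Fin n → Bool) : ℕ := ∑ j, if J j then 0 else 1

theorem cod_true (J : Fin n → Bool) : cod (Fin.cons true J : Fin (n + 1) → Bool) = cod J := by
  simp [cod, Fin.sum_univ_succ, -Finset.sum_boole]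

theorem cod_false (J : Fin n → Bool) :
    cod (Fin.cons false J : Fin (n + 1) → Bool) = cod J + 1 := by
  simp [cod, Fin.sum_univ_succ, add_comm, -Finset.sum_boole]

theorem sum_cons {M : Type*} [AddCommMonoid M] (f : (Fin (n + 1) → Bool) → M) :
    ∑ J, f J = ∑ J : Fin n → Bool, f (Fin.cons true J) + ∑ J : Fin n → Bool, f (Fin.cons false J) := by
  rw [← (Fin.consEquiv fun _ : Fin (n + 1) => Bool).sum_comp, Fintype.sum_prod_type,
    Fintype.sum_bool]
  rfl

theorem sum_cod_zero (K : Set (E n)) :
    ∑ J : Fin n → Bool, (if cod J = 0 then volume (cyl J K) else 0) = volume K := by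
  rw [Finset.sum_eq_single_of_mem (fun _ => true) (Finset.mem_univ _) fun J _ hJ => ?_,
    if_pos (by simp [cod])]
  · congr 1
    ext x
    constructor
    · rintro ⟨⟨y, hy, h⟩, -⟩
      rwa [show x = y from by ext j; exact h j rfl]
    · exact fun hx => ⟨⟨x, hx, fun _ _ => rfl⟩, fun j hj => absurd rfl hj⟩
  · refine if_neg fun h => hJ (funext fun j => ?_)
    have := (Finset.sum_eq_zero_iff.1 h) j (Finset.mem_univ _)
    by_contra hj
    simp [hj] at this

theorem volume_thick_le : ∀ (n : ℕ) (K : Set (E n)), IsCompact K → Convex ℝ K → ∀ r : ℝ, 0 ≤ r →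
    volume (thick (fun _ => r) K) ≤ volume K + ENNReal.ofReal (2 * r) *
      ∑ J : Fin n → Bool, if cod J = 1 then volume (cyl J (thick (fun _ => r) K)) else 0 := by
  intro n
  induction n with
  | zero =>
    intro K _ _ r _
    refine le_add_right (measure_mono ?_)
    rintro x ⟨y, hy, -⟩
    rwa [Subsingleton.elim x y]
  | succ n ih =>
    intro K hK hc r hr
    have he : ∀ i, 0 ≤ (Fin.cons 0 (fun _ => r) : Fin (n + 1) → ℝ) i := fun i =>
      Fin.cases (by simp) (fun j => by simpa using hr) i
    have hT := isCompact_thick (e := fun _ => r) (fun _ => hr) hK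
    set T := thick (fun _ => r) K with hTd
    have hK' := isCompact_thick he hK
    have hc' := convex_thick he hc
    set K' := thick (Fin.cons 0 fun _ => r) K with hK'd
    have h1 : T ⊆ thick (Fin.cons r 0) K' := by
      rintro x ⟨y, hy, h⟩
      refine ⟨cons (y 0) (tail x), ⟨y, hy, fun i => Fin.cases (by simp) (fun j => ?_) i⟩,
        fun i => Fin.cases (by simpa using h 0) (fun j => by simp) i⟩
      simpa using h j.succ
    have h2 : K' ⊆ T := by
      rintro x ⟨y, hy, h⟩
      exact ⟨y, hy, fun i => (h i).trans (Fin.cases (by simpa using hr) (fun j => by simp) i)⟩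
    have h3 : volume K' ≤ volume K + ENNReal.ofReal (2 * r) *
        ∑ J : Fin n → Bool, if cod J = 1 then volume (cyl (Fin.cons true J) T) else 0 := by
      have m : ∀ J : Fin n → Bool, Measurable fun t =>
          if cod J = 1 then volume (slice (cyl (Fin.cons true J) T) t) else 0 := fun J => by
        split_ifs
        · exact measurable_volume_slice (isCompact_cyl _ hT).measurableSet
        · exact measurable_const
      have e : ∀ J : Fin n → Bool, (if cod J = 1 then volume (cyl (Fin.cons true J) T) else 0) =
          ∫⁻ t, if cod J = 1 then volume (slice (cyl (Fin.cons true J) T) t) else 0 := fun J => by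
        split_ifs
        · exact volume_eq_lintegral_slice (isCompact_cyl _ hT).measurableSet
        · simp
      rw [Finset.sum_congr rfl fun J _ => e J, ← lintegral_finsetSum _ fun J _ => m J,
        ← lintegral_const_mul _ (Finset.measurable_sum _ fun J _ => m J),
        volume_eq_lintegral_slice hK'.measurableSet, volume_eq_lintegral_slice hK.measurableSet,
        ← lintegral_add_left (measurable_volume_slice hK.measurableSet)]
      refine lintegral_mono fun t => ?_
      have s1 : slice K' t ⊆ thick (fun _ => r) (slice K t) := by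
        rintro x ⟨y, hy, h⟩
        have h0 : t = y 0 := by simpa [sub_eq_zero] using h 0
        exact ⟨tail y, by rwa [mem_slice, h0, cons_tail], fun j => by simpa using h j.succ⟩
      have s2 : thick (fun _ => r) (slice K t) ⊆ slice T t := by
        rintro x ⟨y, hy, h⟩
        exact ⟨_, hy, fun i => Fin.cases (by simpa using hr) (fun j => by simpa using h j) i⟩
      refine (measure_mono s1).trans
        ((ih _ (isCompact_slice hK t) (convex_slice hc t) r hr).trans ?_)
      gcongr with J _
      split_ifs
      · rw [slice_cyl_true]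
        exact measure_mono (cyl_mono J s2)
      · exact le_rfl
    have h4 : volume (tail '' K') ≤ ∑ J : Fin n → Bool,
        if cod J + 1 = 1 then volume (cyl (Fin.cons false J) T) else 0 := by
      simp only [volume_cyl_false _ hT, Nat.add_eq_right, sum_cod_zero]
      exact measure_mono (image_mono h2)
    refine (measure_mono h1).trans ((volume_vert hK' hc' hr).trans ?_)
    rw [sum_cons]
    simp only [cod_true, cod_false]
    rw [mul_add, ← add_assoc]
    gcongr

theorem cyl_thick_subset (J : Fin n → Bool) (K : Set (E n)) {r : ℝ} (hr : 0 ≤ r) :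
    cyl J (thick (fun _ => r) K) ⊆ cthickening (n * r) (cyl J K) := by
  rintro x ⟨⟨y, ⟨z, hz, h1⟩, h2⟩, h3⟩
  refine mem_cthickening_of_dist_le x (WithLp.toLp 2 fun j => if J j then z j else x j) _ _
    ⟨⟨z, hz, fun j hj => by simp [hj]⟩, fun j hj => by simpa [hj] using h3 j hj⟩ ?_
  refine le_of_sq_le_sq ?_ (by positivity)
  rw [EuclideanSpace.dist_sq_eq]
  calc ∑ i, dist (x i) ((WithLp.toLp 2 fun j => if J j then z j else x j : E n) i) ^ 2
      ≤ ∑ _i : Fin n, r ^ 2 := by
        refine Finset.sum_le_sum fun i _ => pow_le_pow_left₀ dist_nonneg ?_ 2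
        by_cases hi : J i
        · simpa [hi, Real.dist_eq, h2 i hi] using h1 i
        · simpa [hi] using hr
    _ ≤ (n * r) ^ 2 := by
        have : (n : ℝ) ≤ n ^ 2 := by exact_mod_cast Nat.le_self_pow two_ne_zero n
        rw [Finset.sum_const, Finset.card_univ, Fintype.card_fin, nsmul_eq_mul, mul_pow]
        gcongr

theorem surf_le_cyl {K : Set (E n)} (hK : Body K) :
    surf K ≤ 2 * ∑ J : Fin n → Bool, if cod J = 1 then volume.real (cyl J K) else 0 := by
  have hl : Tendsto (fun r : ℝ => 2 * ∑ J : Fin n → Bool,
      if cod J = 1 then volume.real (cthickening (n * r) (cyl J K)) else 0) (𝓝[>] 0)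
      (𝓝 (2 * ∑ J : Fin n → Bool, if cod J = 1 then volume.real (cyl J K) else 0)) := by
    refine (tendsto_finsetSum _ fun J _ => ?_).const_mul 2
    split_ifs
    · have h0 : Tendsto (fun r : ℝ => n * r) (𝓝[>] 0) (𝓝 0) := by
        have : Tendsto (fun r : ℝ => n * r) (𝓝 0) (𝓝 (n * 0)) :=
          (by fun_prop : Continuous fun r : ℝ => n * r).tendsto 0
        simpa using this.mono_left nhdsWithin_le_nhds
      exact (ENNReal.tendsto_toReal (isCompact_cyl J hK.compact).measure_lt_top.ne).comp
        ((tendsto_measure_cthickening_of_isCompact (isCompact_cyl J hK.compact)).comp h0)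
    · exact tendsto_const_nhds
  refine le_of_tendsto_of_tendsto hK.tendsto_surf hl ?_
  filter_upwards [self_mem_nhdsWithin] with r hr
  have hr' : (0 : ℝ) < r := hr
  have h1 : cthickening r K ⊆ thick (fun _ => r) K := fun x hx => by
    obtain ⟨y, hy, h⟩ := (mem_cthickening_iff_exists hK.compact hr'.le).1 hx
    exact ⟨y, hy, fun i => (PiLp.dist_apply_le x y i).trans h⟩
  have f : ∀ J : Fin n → Bool,
      (if cod J = 1 then volume (cthickening (n * r) (cyl J K)) else 0) ≠ ⊤ := fun J => by
    split_ifs
    · exact (isCompact_cyl J hK.compact).cthickening.measure_lt_top.ne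
    · exact ENNReal.zero_ne_top
  have h2 : volume (cthickening r K) ≤ volume K + ENNReal.ofReal (2 * r) *
      ∑ J : Fin n → Bool, if cod J = 1 then volume (cthickening (n * r) (cyl J K)) else 0 := by
    refine (measure_mono h1).trans ((volume_thick_le n K hK.compact hK.convex r hr'.le).trans ?_)
    gcongr with J _
    split_ifs
    · exact measure_mono (cyl_thick_subset J K hr'.le)
    · exact le_rfl
  have f1 := hK.compact.measure_lt_top (μ := volume).ne
  have f2 := ENNReal.mul_ne_top (ENNReal.ofReal_ne_top (r := 2 * r))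
    (ENNReal.sum_ne_top.2 fun J (_ : J ∈ Finset.univ) => f J)
  have h3 := ENNReal.toReal_mono (ENNReal.add_ne_top.2 ⟨f1, f2⟩) h2
  rw [ENNReal.toReal_add f1 f2, ENNReal.toReal_mul, ENNReal.toReal_ofReal (by linarith),
    ENNReal.toReal_sum fun J _ => f J] at h3
  simp only [apply_ite ENNReal.toReal, ENNReal.toReal_zero, ← measureReal_def] at h3
  rw [div_le_iff₀ hr']
  linarith

/-- the sum of the volumes of the coordinate projections of codimension at least two. -/
noncomputable def dav (K : Set (E n)) : ℝ :=
  ∑ J : Fin n → Bool, if 2 ≤ cod J then volume.real (cyl J K) else 0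

theorem dav_nonneg (K : Set (E n)) : 0 ≤ dav K :=
  Finset.sum_nonneg fun J _ => by split_ifs <;> simp [measureReal_nonneg]

theorem dav_step {K : Set (E (n + 1))} (hK : Body K) (α : ℝ) (N : ℕ) :
    ∑ k ∈ Finset.range N, dav (slice K (α + k)) + surf (tail '' K) / 2 ≤ dav K := by
  have h1 := surf_le_cyl hK.tail_image
  have h2 : ∀ J : Fin n → Bool, ∑ k ∈ Finset.range N,
      (if 2 ≤ cod J then volume.real (cyl J (slice K (α + k))) else 0) +
      (if cod J = 1 then volume.real (cyl J (tail '' K)) else 0) ≤
      (if 2 ≤ cod J then volume.real (cyl (Fin.cons true J) K) else 0) +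
      (if 2 ≤ cod J + 1 then volume.real (cyl J (tail '' K)) else 0) := by
    intro J
    by_cases h : 2 ≤ cod J
    · have a := sum_slice_le (isCompact_cyl (Fin.cons true J) hK.compact)
        (convex_cyl _ hK.convex) α N
      have b : volume.real (tail '' cyl (Fin.cons true J) K) ≤ volume.real (cyl J (tail '' K)) :=
        measureReal_mono (tail_cyl _ J K)
          (isCompact_cyl J hK.tail_image.compact).measure_lt_top.ne
      simp only [slice_cyl_true] at a
      simp only [if_pos h, if_neg (show cod J ≠ 1 by omega), if_pos (show 2 ≤ cod J + 1 by omega)]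
      linarith
    · simp only [if_neg h, Finset.sum_const_zero, zero_add]
      by_cases h' : cod J = 1
      · rw [if_pos h', if_pos (by omega)]
      · rw [if_neg h', if_neg (by omega)]
  have h3 := Finset.sum_le_sum fun J (_ : J ∈ Finset.univ) => h2 J
  rw [Finset.sum_add_distrib, Finset.sum_add_distrib, Finset.sum_comm] at h3
  conv_rhs => rw [dav, sum_cons]
  simp only [cod_true, cod_false, measureReal_def, volume_cyl_false _ hK.compact]
  simp only [← measureReal_def, dav]
  linarith

theorem volume_cyl_eq (J : Finset (Fin n)) {K : Set (E n)} (hK : IsCompact K) :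
    volume (cyl (fun j => decide (j ∈ J)) K) = volume ((fun (x : E n) (j : J) => x j) '' K) := by
  have hP : IsCompact ((fun (x : E n) (j : J) => x j) '' K) := hK.image (by fun_prop)
  have h := (volume_preserving_piEquivPiSubtypeProd (fun _ : Fin n => ℝ) (· ∈ J)).comp
    (PiLp.volume_preserving_ofLp (Fin n))
  have e : cyl (fun j => decide (j ∈ J)) K =
      (MeasurableEquiv.piEquivPiSubtypeProd (fun _ : Fin n => ℝ) (· ∈ J) ∘ WithLp.ofLp) ⁻¹'
        (((fun (x : E n) (j : J) => x j) '' K) ×ˢ Icc 0 1) := by
    ext x
    constructor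
    · rintro ⟨⟨y, hy, h1⟩, h2⟩
      exact ⟨⟨y, hy, funext fun j => (h1 j (by simp)).symm⟩,
        fun j => (h2 j (by simpa using j.2)).1, fun j => (h2 j (by simpa using j.2)).2⟩
    · rintro ⟨⟨y, hy, h1⟩, h2, h3⟩
      exact ⟨⟨y, hy, fun j hj => (congrFun h1 ⟨j, by simpa using hj⟩).symm⟩,
        fun j hj => ⟨h2 ⟨j, by simpa using hj⟩, h3 ⟨j, by simpa using hj⟩⟩⟩
  rw [e, h.measure_preimage (hP.measurableSet.prod measurableSet_Icc).nullMeasurableSet,
    Measure.volume_eq_prod, Measure.prod_prod, Real.volume_Icc_pi]
  simp only [Pi.one_apply, Pi.zero_apply, sub_zero, ENNReal.ofReal_one, Finset.prod_const_one,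
    mul_one]
  congr
  exact Subsingleton.elim _ _

theorem dav_eq {K : Set (E n)} (hK : IsCompact K) :
    dav K = ∑ J : Finset (Fin n) with J.card + 2 ≤ n,
      (volume ((fun (x : E n) (j : J) => x j) '' K)).toReal := by
  let e : Finset (Fin n) ≃ (Fin n → Bool) :=
    { toFun := fun J j => decide (j ∈ J)
      invFun := fun b => Finset.univ.filter fun j => b j
      left_inv := fun J => by ext; simp
      right_inv := fun b => by ext; simp }
  rw [dav, ← e.sum_comp, Finset.sum_filter]
  refine Finset.sum_congr rfl fun J _ => ?_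
  have hc : cod (e J) = n - J.card := by
    have : cod (e J) = ∑ j, if j ∈ Jᶜ then 1 else 0 :=
      Finset.sum_congr rfl fun j _ => by by_cases h : j ∈ J <;> simp [e, h]
    rw [this, Finset.sum_ite_mem, Finset.univ_inter, Finset.sum_const, Finset.card_compl]
    simp
  rw [hc, ← volume_cyl_eq J hK]
  exact if_congr (by omega) rfl rfl

end Pool.Agent.Lib.MP_0139c6_co
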