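import Mathlib
import Pool.Agent.Lib.MP_0139c6_co.Dav2

/-!
The induction on the dimension, with coordinate projections.
-/

open MeasureTheory Set Metric Filter Topology

namespace Pool.Agent.Lib.MP_0139c6_co

open Pool.Agent.Shared.EuclidSlice Pool.Agent.Shared.NearestPoint

theorem main_dav : ∀ (n : ℕ) (K : Set (E n)), Body K → ∀ a b : Fin n → ℝ, K ⊆ box a b →
    ((latt K).ncard : ℝ) ≤ volume.real K + surf K / 2 + dav K := by
  intro n
  induction n with
  | zero =>
    intro K hK a b _
    have h1 : (latt K).ncard ≤ 1 :=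
      (ncard_le_one (toFinite _)).2 fun x _ y _ => Subsingleton.elim x y
    have h2 : volume.real K = 1 := by
      rw [Subsingleton.eq_univ_of_nonempty hK.nonempty, volume_euclideanSpace_eq_dirac]
      simp
    have h3 := hK.surf_nonneg
    have h4 := dav_nonneg K
    have h5 : ((latt K).ncard : ℝ) ≤ 1 := by exact_mod_cast h1
    linarith
  | succ n ih =>
    intro K hK a b hab
    have hsl : ∀ t : ℝ, slice K t ⊆ box (Fin.tail a) (Fin.tail b) := fun t x hx =>
      (cons_mem_box.1 (hab hx)).2
    have hrange : ∀ t : ℝ, (slice K t).Nonempty → a 0 ≤ t ∧ t ≤ b 0 := fun t ⟨x, hx⟩ =>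
      (cons_mem_box.1 (hab hx)).1
    by_cases hT : ∃ t : ℤ, (slice K t).Nonempty
    swap
    · have : latt K = ∅ := by
        ext z
        simp only [mem_empty_iff_false, iff_false]
        intro hz
        refine hT ⟨z 0, WithLp.toLp 2 (fun i => (Fin.tail z i : ℝ)), ?_⟩
        rw [mem_slice, ← toLp_cons]
        exact hz
      rw [this, ncard_empty, Nat.cast_zero]
      have h3 := hK.surf_nonneg
      have h4 := dav_nonneg K
      have h5 : 0 ≤ volume.real K := measureReal_nonneg
      linarith
    obtain ⟨α, hα, hα'⟩ := Int.exists_least_of_bdd (P := fun t : ℤ => (slice K t).Nonempty)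
      ⟨⌈a 0⌉, fun t ht => Int.ceil_le.2 (hrange _ ht).1⟩ hT
    obtain ⟨β, hβ, hβ'⟩ := Int.exists_greatest_of_bdd (P := fun t : ℤ => (slice K t).Nonempty)
      ⟨⌊b 0⌋, fun t ht => Int.le_floor.2 (hrange _ ht).2⟩ hT
    obtain ⟨N, hN⟩ : ∃ N : ℕ, β = α + N := ⟨(β - α).toNat, by have := hα' β hβ; omega⟩
    have hNr : (β : ℝ) = α + N := by exact_mod_cast hN
    have N0 : (0 : ℝ) ≤ N := Nat.cast_nonneg N
    set K' := (K ∩ {x | (α : ℝ) ≤ x 0}) ∩ {x | x 0 ≤ (α : ℝ) + N} with hK'
    have hslice : ∀ s : ℝ, (α : ℝ) ≤ s → s ≤ α + N → slice K' s = slice K s := by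
      intro s h1 h2
      ext x
      simp [hK', mem_slice, h1, h2]
    have b1 := body_inter_ge hK.compact hK.convex hα
    have bK' : Body K' := body_inter_le b1.compact b1.convex (s := (α : ℝ) + N) (by
      obtain ⟨x, hx⟩ := hβ
      rw [hNr] at hx
      exact ⟨x, hx, by simp⟩)
    have hsub : K' ⊆ K := inter_subset_left.trans inter_subset_left
    have hstep := step_sum bK'.compact bK'.convex (α := α) (N := N)
      (fun x hx => ⟨hx.1.2, hx.2⟩) (by rw [hslice _ le_rfl (by linarith)]; exact hα)
      (by rw [hslice _ (by linarith) le_rfl, ← hNr]; exact hβ)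
    have hcount : (latt K).ncard ≤ ∑ k ∈ Finset.range (N + 1), (latt (slice K (α + k))).ncard := by
      have hs : latt K ⊆ ⋃ k ∈ Finset.range (N + 1),
          (fun w : Fin n → ℤ => (Fin.cons (α + k) w : Fin (n + 1) → ℤ)) ''
            latt (slice K (α + k)) := by
        intro z hz
        have hz' : WithLp.toLp 2 (fun i => (Fin.tail z i : ℝ)) ∈ slice K (z 0) := by
          rw [mem_slice, ← toLp_cons]
          exact hz
        have h1 := hα' _ ⟨_, hz'⟩
        have h2 := hβ' _ ⟨_, hz'⟩
        obtain ⟨k, hk⟩ : ∃ k : ℕ, z 0 = α + k := ⟨(z 0 - α).toNat, by omega⟩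
        simp only [mem_iUnion]
        refine ⟨k, Finset.mem_range.2 (by omega), Fin.tail z, ?_, ?_⟩
        · have e : ((z 0 : ℤ) : ℝ) = α + k := by exact_mod_cast hk
          rw [e] at hz'
          exact hz'
        · simp only [← hk, Fin.cons_self_tail]
      refine (ncard_le_ncard hs ?_).trans ((Finset.set_ncard_biUnion_le _ _).trans ?_)
      · exact (Finset.range (N + 1)).finite_toSet.biUnion fun k _ =>
          (latt_finite (hsl _)).image _
      · exact Finset.sum_le_sum fun k _ => ncard_image_le (latt_finite (hsl _))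
    have hIH : ∑ k ∈ Finset.range (N + 1), ((latt (slice K (α + k))).ncard : ℝ) ≤
        ∑ k ∈ Finset.range (N + 1), ((volume.real (slice K' (α + k)) +
          surf (slice K' (α + k)) / 2) + dav (slice K (α + k))) := by
      refine Finset.sum_le_sum fun k hk => ?_
      have hk' : (k : ℝ) ≤ N := by exact_mod_cast Nat.lt_succ_iff.1 (Finset.mem_range.1 hk)
      have k0 : (0 : ℝ) ≤ k := Nat.cast_nonneg k
      rw [hslice _ (by linarith) (by linarith)]
      refine ih _ ⟨isCompact_slice hK.compact _, convex_slice hK.convex _, ?_⟩ _ _ (hsl _)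
      have hmem : (α : ℝ) + k ∈ segment ℝ (α : ℝ) β := by
        rw [segment_eq_Icc (by linarith)]
        exact ⟨by linarith, by linarith⟩
      obtain ⟨s, t, hs, ht, hst, hs'⟩ := hmem
      have := slice_nonempty_between hK.convex hα hβ ht (by linarith)
      have e : (α : ℝ) + t * (β - α) = α + k := by
        rw [← hs', smul_eq_mul, smul_eq_mul, show s = 1 - t by linarith]; ring
      rwa [e] at this
    rw [Finset.sum_add_distrib] at hIH
    have c1 : ((latt K).ncard : ℝ) ≤
        ∑ k ∈ Finset.range (N + 1), ((latt (slice K (α + k))).ncard : ℝ) := by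
      exact_mod_cast hcount
    have c2 : volume.real K' ≤ volume.real K :=
      measureReal_mono hsub hK.compact.measure_lt_top.ne
    have c3 : surf K' ≤ surf K := surf_mono bK' hK hsub
    have c4 : surf (tail '' K') ≤ surf (tail '' K) :=
      surf_mono bK'.tail_image hK.tail_image (image_mono hsub)
    have c5 := dav_step hK α (N + 1)
    linarith

end Pool.Agent.Lib.MP_0139c6_co
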